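import Mathlib

set_option autoImplicit false

namespace Q117.CP

open Finset

/-- the coordinate function of the tail at `1/k` -/
noncomputable def S (k e : ℕ) : ℝ := ∏ j ∈ Finset.Ico 1 e, (1 - (j : ℝ) / (k : ℝ))

lemma S_succ (k e : ℕ) (he : 1 ≤ e) : S k (e + 1) = S k e * (1 - (e : ℝ) / k) := by
  unfold S
  rw [Finset.prod_Ico_succ_top he]

lemma desc_eq (k : ℕ) (hk : 1 ≤ k) (e : ℕ) : (k.descFactorial e : ℝ) = (k : ℝ) ^ e * S k e := by
  have hk' : (k : ℝ) ≠ 0 := by
    have : (1 : ℝ) ≤ k := by exact_mod_cast hk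
    linarith
  induction e with
  | zero => simp [S]
  | succ e ih =>
    rcases Nat.eq_zero_or_pos e with rfl | he
    · simp [S]
    · rw [Nat.descFactorial_succ, S_succ k e he, pow_succ]
      push_cast
      rcases le_or_gt e k with h | h
      · rw [Nat.cast_sub h, ih]
        field_simp
      · have h0 : k.descFactorial e = 0 := Nat.descFactorial_eq_zero_iff_lt.2 h
        rw [h0] at ih ⊢
        have : S k e = 0 := by
          have h1 : (k : ℝ) ^ e ≠ 0 := pow_ne_zero _ hk'
          have h2 : (k : ℝ) ^ e * S k e = 0 := by rw [← ih]; simp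
          rcases mul_eq_zero.1 h2 with h3 | h3
          · exact absurd h3 h1
          · exact h3
        rw [this]
        simp

lemma S_tendsto (e : ℕ) : Filter.Tendsto (fun k : ℕ => S k e) Filter.atTop (nhds 1) := by
  unfold S
  have h : Filter.Tendsto (fun k : ℕ => ∏ j ∈ Finset.Ico 1 e, (1 - (j : ℝ) / (k : ℝ)))
      Filter.atTop (nhds (∏ j ∈ Finset.Ico 1 e, (1 - 0 : ℝ))) := by
    apply tendsto_finsetProd
    intro j _
    exact (tendsto_const_div_atTop_nhds_zero_nat (j : ℝ)).const_sub 1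
  simpa using h

variable {V : Type*} [Fintype V] [DecidableEq V]

/-- `∑ K ∈ F, ∏ v ∈ K, x v` -/
def L (F : Finset (Finset V)) (x : V → ℝ) : ℝ := ∑ K ∈ F, ∏ v ∈ K, x v

/-- move weight `t` from `v` to `u` -/
def mv (x : V → ℝ) (u v : V) (t : ℝ) : V → ℝ :=
  fun w => if w = u then x u + t else if w = v then x v - t else x w

/-- coefficient of `t` from `u` -/
def Bc (F : Finset (Finset V)) (x : V → ℝ) (u v : V) : ℝ :=
  ∑ K ∈ F.filter (fun K => u ∈ K ∧ v ∉ K), ∏ w ∈ K.erase u, x w

/-- coefficient of the product -/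
def Cc (F : Finset (Finset V)) (x : V → ℝ) (u v : V) : ℝ :=
  ∑ K ∈ F.filter (fun K => u ∈ K ∧ v ∈ K), ∏ w ∈ (K.erase u).erase v, x w

lemma mv_off (x : V → ℝ) (u v : V) (t : ℝ) (K : Finset V) (hu : u ∉ K) (hv : v ∉ K) :
    ∏ w ∈ K, mv x u v t w = ∏ w ∈ K, x w := by
  apply Finset.prod_congr rfl
  intro w hw
  unfold mv
  rw [if_neg (by rintro rfl; exact hu hw), if_neg (by rintro rfl; exact hv hw)]

lemma mv_u (x : V → ℝ) (u v : V) (t : ℝ) : mv x u v t u = x u + t := by
  unfold mv; rw [if_pos rfl]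

lemma mv_v (x : V → ℝ) (u v : V) (huv : u ≠ v) (t : ℝ) : mv x u v t v = x v - t := by
  unfold mv; rw [if_neg huv.symm, if_pos rfl]

lemma prod_mv (x : V → ℝ) (u v : V) (huv : u ≠ v) (t : ℝ) (K : Finset V) :
    ∏ w ∈ K, mv x u v t w = ∏ w ∈ K, x w +
      t * ((if u ∈ K ∧ v ∉ K then ∏ w ∈ K.erase u, x w else 0) -
        (if v ∈ K ∧ u ∉ K then ∏ w ∈ K.erase v, x w else 0)) +
      (t * (x v - x u) - t ^ 2) *
        (if u ∈ K ∧ v ∈ K then ∏ w ∈ (K.erase u).erase v, x w else 0) := by
  by_cases hu : u ∈ K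
  · by_cases hv : v ∈ K
    · have hvK : v ∈ K.erase u := Finset.mem_erase.2 ⟨huv.symm, hv⟩
      rw [if_neg (fun h => h.2 hv), if_neg (fun h => h.2 hu), if_pos ⟨hu, hv⟩]
      rw [← Finset.mul_prod_erase K _ hu, ← Finset.mul_prod_erase (K.erase u) _ hvK,
        mv_u, mv_v x u v huv, mv_off x u v t ((K.erase u).erase v) (by simp) (by simp),
        ← Finset.mul_prod_erase K x hu, ← Finset.mul_prod_erase (K.erase u) x hvK]
      ring
    · rw [if_pos ⟨hu, hv⟩, if_neg (fun h => hv h.1), if_neg (fun h => hv h.2)]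
      rw [← Finset.mul_prod_erase K _ hu, mv_u,
        mv_off x u v t (K.erase u) (by simp) (fun h => hv (Finset.mem_of_mem_erase h)),
        ← Finset.mul_prod_erase K x hu]
      ring
  · by_cases hv : v ∈ K
    · rw [if_neg (fun h => hu h.1), if_pos ⟨hv, hu⟩, if_neg (fun h => hu h.1)]
      rw [← Finset.mul_prod_erase K _ hv, mv_v x u v huv,
        mv_off x u v t (K.erase v) (fun h => hu (Finset.mem_of_mem_erase h)) (by simp),
        ← Finset.mul_prod_erase K x hv]
      ring
    · rw [if_neg (fun h => hu h.1), if_neg (fun h => hv h.1), if_neg (fun h => hu h.1),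
        mv_off x u v t K hu hv]
      ring

lemma L_mv (F : Finset (Finset V)) (x : V → ℝ) (u v : V) (huv : u ≠ v) (t : ℝ) :
    L F (mv x u v t) = L F x + t * (Bc F x u v - Bc F x v u) +
      (t * (x v - x u) - t ^ 2) * Cc F x u v := by
  unfold L Bc Cc
  rw [Finset.sum_congr rfl (fun K _ => prod_mv x u v huv t K)]
  rw [Finset.sum_add_distrib, Finset.sum_add_distrib, ← Finset.mul_sum, ← Finset.mul_sum,
    Finset.sum_sub_distrib, Finset.sum_filter, Finset.sum_filter, Finset.sum_filter]

/-- symmetry of the coefficients for the family of all `e`-subsets of `T` -/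
lemma Bc_symm (T : Finset V) (e : ℕ) (x : V → ℝ) (u v : V) (hu : u ∈ T) (hv : v ∈ T) :
    Bc (T.powersetCard e) x u v = Bc (T.powersetCard e) x v u := by
  by_cases huv : u = v
  · rw [huv]
  unfold Bc
  refine Finset.sum_bij' (fun K _ => insert v (K.erase u)) (fun K _ => insert u (K.erase v))
    ?_ ?_ ?_ ?_ ?_
  · intro K hK
    simp only [mem_filter, mem_powersetCard] at hK ⊢
    obtain ⟨⟨h1, h2⟩, h3, h4⟩ := hK
    have h5 : v ∉ K.erase u := fun h => h4 (Finset.mem_of_mem_erase h)
    refine ⟨⟨?_, ?_⟩, Finset.mem_insert_self _ _, ?_⟩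
    · intro w hw
      rw [mem_insert] at hw
      rcases hw with rfl | hw
      · exact hv
      · exact h1 (Finset.mem_of_mem_erase hw)
    · rw [Finset.card_insert_of_notMem h5, Finset.card_erase_of_mem h3]
      have : 0 < K.card := Finset.card_pos.2 ⟨u, h3⟩
      omega
    · rw [mem_insert]
      rintro (h | h)
      · exact huv h
      · exact (Finset.notMem_erase u K) h
  · intro K hK
    simp only [mem_filter, mem_powersetCard] at hK ⊢
    obtain ⟨⟨h1, h2⟩, h3, h4⟩ := hK
    have h5 : u ∉ K.erase v := fun h => h4 (Finset.mem_of_mem_erase h)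
    refine ⟨⟨?_, ?_⟩, Finset.mem_insert_self _ _, ?_⟩
    · intro w hw
      rw [mem_insert] at hw
      rcases hw with rfl | hw
      · exact hu
      · exact h1 (Finset.mem_of_mem_erase hw)
    · rw [Finset.card_insert_of_notMem h5, Finset.card_erase_of_mem h3]
      have : 0 < K.card := Finset.card_pos.2 ⟨v, h3⟩
      omega
    · rw [mem_insert]
      rintro (h | h)
      · exact huv h.symm
      · exact (Finset.notMem_erase v K) h
  · intro K hK
    simp only [mem_filter, mem_powersetCard] at hK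
    obtain ⟨⟨h1, h2⟩, h3, h4⟩ := hK
    have h5 : v ∉ K.erase u := fun h => h4 (Finset.mem_of_mem_erase h)
    rw [Finset.erase_insert h5, Finset.insert_erase h3]
  · intro K hK
    simp only [mem_filter, mem_powersetCard] at hK
    obtain ⟨⟨h1, h2⟩, h3, h4⟩ := hK
    have h5 : u ∉ K.erase v := fun h => h4 (Finset.mem_of_mem_erase h)
    rw [Finset.erase_insert h5, Finset.insert_erase h3]
  · intro K hK
    simp only [mem_filter, mem_powersetCard] at hK
    obtain ⟨⟨h1, h2⟩, h3, h4⟩ := hK
    have h5 : v ∉ K.erase u := fun h => h4 (Finset.mem_of_mem_erase h)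
    rw [Finset.erase_insert h5]

/-- support -/
noncomputable def supp (x : V → ℝ) : Finset V := by
  classical
  exact Finset.univ.filter (fun v => x v ≠ 0)

lemma mem_supp {x : V → ℝ} {v : V} : v ∈ supp x ↔ x v ≠ 0 := by
  unfold supp; simp

variable {ι : Type*} [Fintype ι]

/-- The generalised Motzkin-Straus function. -/
noncomputable def PP (F : ι → Finset (Finset V)) (a : ι → ℝ) (x : V → ℝ) : ℝ :=
  ∑ i, a i * L (F i) x

lemma PP_continuous (F : ι → Finset (Finset V)) (a : ι → ℝ) : Continuous (PP F a) := by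
  unfold PP L
  fun_prop

lemma PP_mv (F : ι → Finset (Finset V)) (a : ι → ℝ) (x : V → ℝ) (u v : V) (huv : u ≠ v)
    (t : ℝ) :
    PP F a (mv x u v t) = PP F a x + t * (∑ i, a i * (Bc (F i) x u v - Bc (F i) x v u)) +
      (t * (x v - x u) - t ^ 2) * ∑ i, a i * Cc (F i) x u v := by
  unfold PP
  rw [Finset.mul_sum, Finset.mul_sum, ← Finset.sum_add_distrib, ← Finset.sum_add_distrib]
  apply Finset.sum_congr rfl
  intro i _
  rw [L_mv (F i) x u v huv t]
  ring

lemma mv_mem {x : V → ℝ} (hx : x ∈ stdSimplex ℝ V) (u v : V) (huv : u ≠ v) (t : ℝ)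
    (h1 : 0 ≤ x u + t) (h2 : 0 ≤ x v - t) : mv x u v t ∈ stdSimplex ℝ V := by
  refine ⟨?_, ?_⟩
  · intro w
    unfold mv
    split_ifs
    · exact h1
    · exact h2
    · exact hx.1 w
  · have h3 : ∀ w, mv x u v t w = x w + ((if w = u then t else 0) - (if w = v then t else 0)) := by
      intro w
      unfold mv
      by_cases hwu : w = u
      · subst hwu
        rw [if_pos rfl, if_pos rfl, if_neg huv]
        ring
      · by_cases hwv : w = v
        · subst hwv
          rw [if_neg hwu, if_pos rfl, if_neg hwu, if_pos rfl]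
          ring
        · rw [if_neg hwu, if_neg hwv, if_neg hwu, if_neg hwv]
          ring
    simp only [h3]
    rw [Finset.sum_add_distrib, Finset.sum_sub_distrib]
    simp [hx.2]


lemma L_restrict (G : SimpleGraph V) [DecidableRel G.Adj] (e : ℕ) (T : Finset V)
    (hT : ∀ u ∈ T, ∀ v ∈ T, u ≠ v → G.Adj u v) (y : V → ℝ) (hy : ∀ v, v ∉ T → y v = 0) :
    L (G.cliqueFinset e) y = L (T.powersetCard e) y := by
  unfold L
  symm
  apply Finset.sum_subset
  · intro K hK
    rw [mem_powersetCard] at hK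
    rw [SimpleGraph.mem_cliqueFinset_iff, SimpleGraph.isNClique_iff]
    refine ⟨?_, hK.2⟩
    intro u hu v hv huv
    exact hT u (hK.1 hu) v (hK.1 hv) huv
  · intro K hK hK'
    rw [SimpleGraph.mem_cliqueFinset_iff, SimpleGraph.isNClique_iff] at hK
    have : ¬ K ⊆ T := fun h => hK' (mem_powersetCard.2 ⟨h, hK.2⟩)
    obtain ⟨w, hw, hwT⟩ := Finset.not_subset.1 this
    exact Finset.prod_eq_zero hw (hy w hwT)

/-- **Motzkin-Straus type theorem** for arbitrary real combinations of clique densities. -/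
theorem MS [Nonempty V] (G : SimpleGraph V) [DecidableRel G.Adj] (e : ι → ℕ) (c : ι → ℝ) (u₀ : ℝ)
    (hu₀ : ∀ k : ℕ, 1 ≤ k → u₀ ≤ ∑ i, c i * S k (e i)) (x : V → ℝ) (hx : x ∈ stdSimplex ℝ V) :
    u₀ ≤ PP (fun i => G.cliqueFinset (e i)) (fun i => c i * ((e i).factorial : ℝ)) x := by
  classical
  set F : ι → Finset (Finset V) := fun i => G.cliqueFinset (e i) with hF
  set a : ι → ℝ := fun i => c i * ((e i).factorial : ℝ) with ha
  have hne : (stdSimplex ℝ V).Nonempty := ⟨x, hx⟩
  obtain ⟨x₀, hx₀, hmin⟩ := (isCompact_stdSimplex ℝ V).exists_isMinOn hne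
    (PP_continuous F a).continuousOn
  set M := PP F a x₀ with hM
  set Q : Set (V → ℝ) := {y | y ∈ stdSimplex ℝ V ∧ PP F a y = M} with hQ
  have hQne : Q.Nonempty := ⟨x₀, hx₀, rfl⟩
  set z := Function.argminOn (fun y : V → ℝ => (supp y).card) Q hQne with hz
  have hzQ : z ∈ Q := Function.argminOn_mem _ _ _
  have hzmin : ∀ y ∈ Q, (supp z).card ≤ (supp y).card := fun y hy =>
    Function.argminOn_le (fun y : V → ℝ => (supp y).card) Q hy
  have hall : ∀ y ∈ stdSimplex ℝ V, M ≤ PP F a y := fun y hy => hmin hy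
  have hz0 : ∀ v, 0 ≤ z v := hzQ.1.1
  have hpos : ∀ v ∈ supp z, 0 < z v := fun v hv =>
    lt_of_le_of_ne (hz0 v) (Ne.symm (mem_supp.1 hv))
  -- moving everything from `v` to `u` cannot give another minimiser
  have hred : ∀ u ∈ supp z, ∀ v ∈ supp z, u ≠ v → M < PP F a (mv z u v (z v)) := by
    intro u hu v hv huv
    have hmem : mv z u v (z v) ∈ stdSimplex ℝ V :=
      mv_mem hzQ.1 u v huv (z v) (add_nonneg (hz0 u) (hz0 v)) (by simp)
    refine lt_of_le_of_ne (hall _ hmem) (fun heq => ?_)
    have h1 := hzmin _ ⟨hmem, heq.symm⟩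
    have h2 : supp (mv z u v (z v)) ⊆ (supp z).erase v := by
      intro w hw
      rw [mem_supp] at hw
      rw [mem_erase, mem_supp]
      unfold mv at hw
      by_cases hwu : w = u
      · subst hwu
        exact ⟨huv, mem_supp.1 hu⟩
      · rw [if_neg hwu] at hw
        by_cases hwv : w = v
        · rw [if_pos hwv] at hw
          exact absurd (sub_self _) hw
        · rw [if_neg hwv] at hw
          exact ⟨hwv, hw⟩
    have h3 := Finset.card_le_card h2
    rw [Finset.card_erase_of_mem hv] at h3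
    have : 0 < (supp z).card := Finset.card_pos.2 ⟨v, hv⟩
    omega
  -- the support is a clique
  have hclique : ∀ u ∈ supp z, ∀ v ∈ supp z, u ≠ v → G.Adj u v := by
    intro u hu v hv huv
    by_contra hnadj
    have hC : ∀ u v : V, u ≠ v → ¬ G.Adj u v → ∑ i, a i * Cc (F i) z u v = 0 := by
      intro u v huv hn
      apply Finset.sum_eq_zero
      intro i _
      have : Cc (F i) z u v = 0 := by
        unfold Cc
        apply Finset.sum_eq_zero
        intro K hK
        rw [mem_filter, hF, SimpleGraph.mem_cliqueFinset_iff, SimpleGraph.isNClique_iff] at hK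
        exact absurd (hK.1.1 hK.2.1 hK.2.2 huv) hn
      rw [this, mul_zero]
    have h1 := hred u hu v hv huv
    have h2 := hred v hv u hu huv.symm
    rw [PP_mv F a z u v huv, hC u v huv hnadj, hzQ.2] at h1
    rw [PP_mv F a z v u huv.symm, hC v u huv.symm (fun h => hnadj h.symm), hzQ.2] at h2
    have h3 : ∑ i, a i * (Bc (F i) z v u - Bc (F i) z u v) =
        -∑ i, a i * (Bc (F i) z u v - Bc (F i) z v u) := by
      rw [← Finset.sum_neg_distrib]
      apply Finset.sum_congr rfl
      intro i _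
      ring
    rw [h3] at h2
    have pu := hpos u hu
    have pv := hpos v hv
    have h4 : 0 < z v * ∑ i, a i * (Bc (F i) z u v - Bc (F i) z v u) := by linarith
    have h5 : 0 < z u * -∑ i, a i * (Bc (F i) z u v - Bc (F i) z v u) := by linarith
    have h6 := (pos_iff_pos_of_mul_pos h4).1 pv
    have h7 := (pos_iff_pos_of_mul_pos h5).1 pu
    linarith
  -- restrict to the support
  set T := supp z with hT
  set F' : ι → Finset (Finset V) := fun i => T.powersetCard (e i) with hF'
  have hFF' : ∀ y : V → ℝ, (∀ v, v ∉ T → y v = 0) → PP F a y = PP F' a y := by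
    intro y hy
    unfold PP
    apply Finset.sum_congr rfl
    intro i _
    rw [hF, hF']
    rw [L_restrict G (e i) T hclique y hy]
  have hzT : ∀ v, v ∉ T → z v = 0 := by
    intro v hv
    by_contra h
    exact hv (mem_supp.2 h)
  have hmvT : ∀ u ∈ T, ∀ v ∈ T, ∀ t, ∀ w, w ∉ T → mv z u v t w = 0 := by
    intro u hu v hv t w hw
    unfold mv
    rw [if_neg (by rintro rfl; exact hw hu), if_neg (by rintro rfl; exact hw hv)]
    exact hzT w hw
  have heq : ∀ u ∈ T, ∀ v ∈ T, z u = z v := by
    intro u hu v hv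
    by_cases huv : u = v
    · rw [huv]
    have hD : ∑ i, a i * (Bc (F' i) z u v - Bc (F' i) z v u) = 0 := by
      apply Finset.sum_eq_zero
      intro i _
      rw [hF']
      rw [Bc_symm T (e i) z u v hu hv]
      ring
    have hzF' : PP F' a z = M := by rw [← hFF' z hzT]; exact hzQ.2
    have pu := hpos u hu
    have pv := hpos v hv
    set C := ∑ i, a i * Cc (F' i) z u v with hCdef
    have h1 := hred u hu v hv huv
    rw [hFF' _ (hmvT u hu v hv _), PP_mv F' a z u v huv, hD, hzF', ← hCdef] at h1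
    have h2 : (z v * (z v - z u) - z v ^ 2) * C = -(z u * z v) * C := by ring
    rw [h2] at h1
    have hCneg : C < 0 := by
      have h3 : 0 < (z u * z v) * (-C) := by linarith
      have := (pos_iff_pos_of_mul_pos h3).1 (mul_pos pu pv)
      linarith
    have hmem : mv z u v ((z v - z u) / 2) ∈ stdSimplex ℝ V :=
      mv_mem hzQ.1 u v huv _ (by linarith) (by linarith)
    have h4 := hall _ hmem
    rw [hFF' _ (hmvT u hu v hv _), PP_mv F' a z u v huv, hD, hzF', ← hCdef] at h4
    have h5 : ((z v - z u) / 2 * (z v - z u) - ((z v - z u) / 2) ^ 2) * C =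
        (z v - z u) ^ 2 / 4 * C := by ring
    rw [h5] at h4
    have h6 : (z v - z u) ^ 2 ≤ 0 := by
      by_contra hcon
      push Not at hcon
      have : (z v - z u) ^ 2 / 4 * C < 0 := mul_neg_of_pos_of_neg (by linarith) hCneg
      linarith
    have h7 : z v - z u = 0 := by
      have := sq_nonneg (z v - z u)
      have h8 : (z v - z u) ^ 2 = 0 := le_antisymm h6 this
      exact pow_eq_zero_iff (two_ne_zero) |>.1 h8
    linarith
  -- evaluate
  have hsum : ∑ v ∈ T, z v = 1 := by
    rw [← hzQ.1.2]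
    apply Finset.sum_subset (Finset.subset_univ _)
    intro v _ hv
    exact hzT v hv
  have hTne : T.Nonempty := by
    by_contra h
    rw [Finset.not_nonempty_iff_eq_empty] at h
    rw [h] at hsum
    simp at hsum
  obtain ⟨w₀, hw₀⟩ := hTne
  set k := T.card with hk
  have hk1 : 1 ≤ k := Finset.card_pos.2 ⟨w₀, hw₀⟩
  have hk0 : (k : ℝ) ≠ 0 := by
    have : (1 : ℝ) ≤ k := by exact_mod_cast hk1
    linarith
  have hval : ∀ v ∈ T, z v = 1 / (k : ℝ) := by
    intro v hv
    have h1 : ∑ w ∈ T, z w = k * z v := by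
      rw [Finset.sum_congr rfl (fun w hw => heq w hw v hv), Finset.sum_const, nsmul_eq_mul]
    rw [hsum] at h1
    field_simp
    linarith
  have hfinal : M = ∑ i, c i * S k (e i) := by
    rw [← hzQ.2, hFF' z hzT]
    unfold PP
    apply Finset.sum_congr rfl
    intro i _
    have h1 : L (F' i) z = ((k.choose (e i) : ℕ) : ℝ) * (1 / (k : ℝ)) ^ (e i) := by
      unfold L
      rw [hF']
      have : ∀ K ∈ T.powersetCard (e i), ∏ v ∈ K, z v = (1 / (k : ℝ)) ^ (e i) := by
        intro K hK
        rw [mem_powersetCard] at hK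
        rw [Finset.prod_congr rfl (fun v hv => hval v (hK.1 hv)), Finset.prod_const, hK.2]
      rw [Finset.sum_congr rfl this, Finset.sum_const, Finset.card_powersetCard, nsmul_eq_mul]
    rw [h1, ha]
    have h2 := desc_eq k hk1 (e i)
    rw [Nat.descFactorial_eq_factorial_mul_choose] at h2
    push_cast at h2
    have h3 : (k : ℝ) ^ (e i) ≠ 0 := pow_ne_zero _ hk0
    calc c i * ((e i).factorial : ℝ) * (((k.choose (e i) : ℕ) : ℝ) * (1 / (k : ℝ)) ^ (e i))
        = c i * ((((e i).factorial : ℝ) * ((k.choose (e i) : ℕ) : ℝ)) / (k : ℝ) ^ (e i)) := by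
          rw [one_div, inv_pow]
          ring
      _ = c i * S k (e i) := by
          rw [h2]
          field_simp
  calc u₀ ≤ ∑ i, c i * S k (e i) := hu₀ k hk1
    _ = M := hfinal.symm
    _ ≤ PP F a x := hall x hx

end Q117.CP
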