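import Mathlib
import Pool.Agent.Q117.CP.MS

set_option autoImplicit false

namespace Q117.CP

open Finset

/-- the complete multipartite graph of a function -/
def MG {N k : ℕ} (φ : Fin N → Fin k) : SimpleGraph (Fin N) where
  Adj u v := φ u ≠ φ v
  symm := ⟨fun _ _ h => h.symm⟩
  loopless := ⟨fun _ h => h rfl⟩

open scoped Classical in
lemma count_inj (N k : ℕ) (K : Finset (Fin N)) :
    (univ.filter (fun φ : Fin N → Fin k => Set.InjOn φ (K : Set (Fin N)))).card =
      k.descFactorial K.card * k ^ (N - K.card) := by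
  rw [← Fintype.card_subtype]
  have e1 : {φ : Fin N → Fin k // Set.InjOn φ (K : Set (Fin N))} ≃
      {f : ({x // x ∈ K} → Fin k) × ({x // ¬ x ∈ K} → Fin k) // Function.Injective f.1} := by
    refine (Equiv.piEquivPiSubtypeProd (fun x => x ∈ K) (fun _ => Fin k)).subtypeEquiv ?_
    intro φ
    rw [Set.injOn_iff_injective]
    rfl
  have e2 : {f : ({x // x ∈ K} → Fin k) × ({x // ¬ x ∈ K} → Fin k) // Function.Injective f.1} ≃
      {f : {x // x ∈ K} → Fin k // Function.Injective f} × ({x // ¬ x ∈ K} → Fin k) :=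
    { toFun := fun f => (⟨f.1.1, f.2⟩, f.1.2)
      invFun := fun f => ⟨(f.1.1, f.2), f.1.2⟩
      left_inv := fun _ => rfl
      right_inv := fun _ => rfl }
  have e3 : {f : {x // x ∈ K} → Fin k // Function.Injective f} ≃ ({x // x ∈ K} ↪ Fin k) :=
    Equiv.subtypeInjectiveEquivEmbedding _ _
  rw [Fintype.card_congr (e1.trans (e2.trans (Equiv.prodCongr e3 (Equiv.refl _))))]
  rw [Fintype.card_prod, Fintype.card_embedding_eq, Fintype.card_fun, Fintype.card_coe,
    Fintype.card_fin]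
  congr 2
  have : Fintype.card {x // ¬ x ∈ K} = Fintype.card (Fin N) - Fintype.card {x // x ∈ K} :=
    Fintype.card_subtype_compl _
  rw [this, Fintype.card_coe, Fintype.card_fin]

open scoped Classical in
lemma clique_MG {N k : ℕ} (φ : Fin N → Fin k) (e : ℕ) [DecidableRel (MG φ).Adj] :
    ((MG φ).cliqueFinset e) =
      ((univ : Finset (Fin N)).powersetCard e).filter
        (fun K : Finset (Fin N) => Set.InjOn φ (K : Set (Fin N))) := by
  ext K
  rw [SimpleGraph.mem_cliqueFinset_iff, SimpleGraph.isNClique_iff, mem_filter, mem_powersetCard]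
  constructor
  · rintro ⟨h1, h2⟩
    refine ⟨⟨Finset.subset_univ _, h2⟩, ?_⟩
    intro u hu v hv huv
    by_contra hne
    exact h1 hu hv hne huv
  · rintro ⟨⟨_, h2⟩, h3⟩
    refine ⟨?_, h2⟩
    intro u hu v hv hne huv
    exact hne (h3 hu hv huv)

open scoped Classical in
/-- The average clique density over all `φ`. -/
lemma average (N k e : ℕ) (hk : 1 ≤ k) (he : e ≤ N) :
    ∑ φ : Fin N → Fin k, (1 / (k : ℝ) ^ N) *
      ((((MG φ).cliqueFinset e).card : ℝ) / ((N.choose e : ℕ) : ℝ)) = S k e := by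
  have hk0 : (k : ℝ) ≠ 0 := by
    have : (1 : ℝ) ≤ k := by exact_mod_cast hk
    linarith
  have hch : ((N.choose e : ℕ) : ℝ) ≠ 0 := by
    have : 0 < N.choose e := Nat.choose_pos he
    positivity
  have h1 : ∑ φ : Fin N → Fin k, (((MG φ).cliqueFinset e).card : ℝ) =
      (N.choose e : ℝ) * (k.descFactorial e * (k : ℝ) ^ (N - e)) := by
    have h2 : ∀ φ : Fin N → Fin k, (((MG φ).cliqueFinset e).card : ℝ) =
        ∑ K ∈ (univ : Finset (Fin N)).powersetCard e,
          (if Set.InjOn φ (K : Set (Fin N)) then (1 : ℝ) else 0) := by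
      intro φ
      rw [clique_MG, Finset.sum_boole]
    rw [Finset.sum_congr rfl (fun φ _ => h2 φ), Finset.sum_comm]
    have h3 : ∀ K ∈ (univ : Finset (Fin N)).powersetCard e,
        (∑ φ : Fin N → Fin k, (if Set.InjOn φ (K : Set (Fin N)) then (1 : ℝ) else 0)) =
        k.descFactorial e * (k : ℝ) ^ (N - e) := by
      intro K hK
      rw [mem_powersetCard] at hK
      rw [Finset.sum_boole, count_inj, hK.2]
      push_cast
      rfl
    rw [Finset.sum_congr rfl h3, Finset.sum_const, Finset.card_powersetCard, Finset.card_univ,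
      Fintype.card_fin, nsmul_eq_mul]
  have h4 : ∑ φ : Fin N → Fin k, (1 / (k : ℝ) ^ N) *
      ((((MG φ).cliqueFinset e).card : ℝ) / ((N.choose e : ℕ) : ℝ)) =
      (1 / (k : ℝ) ^ N) * ((∑ φ : Fin N → Fin k, (((MG φ).cliqueFinset e).card : ℝ)) /
        ((N.choose e : ℕ) : ℝ)) := by
    rw [← Finset.mul_sum, Finset.sum_div]
  rw [h4, h1, desc_eq k hk e]
  have h5 : (k : ℝ) ^ N = (k : ℝ) ^ e * (k : ℝ) ^ (N - e) := by
    rw [← pow_add]
    congr 1
    omega
  rw [h5]
  have h6 : (k : ℝ) ^ e ≠ 0 := pow_ne_zero _ hk0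
  have h7 : (k : ℝ) ^ (N - e) ≠ 0 := pow_ne_zero _ hk0
  field_simp

/-- The uniform weighting evaluates the clique polynomial to the clique density. -/
lemma uniform {N : ℕ} (hN : 1 ≤ N) (G : SimpleGraph (Fin N)) [DecidableRel G.Adj] (e : ℕ)
    (he : e ≤ N) :
    (e.factorial : ℝ) * L (G.cliqueFinset e) (fun _ => 1 / (N : ℝ)) =
      S N e * (((G.cliqueFinset e).card : ℝ) / ((N.choose e : ℕ) : ℝ)) := by
  have hN0 : (N : ℝ) ≠ 0 := by
    have : (1 : ℝ) ≤ N := by exact_mod_cast hN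
    linarith
  have hch : ((N.choose e : ℕ) : ℝ) ≠ 0 := by
    have : 0 < N.choose e := Nat.choose_pos he
    positivity
  have h1 : L (G.cliqueFinset e) (fun _ => 1 / (N : ℝ)) =
      ((G.cliqueFinset e).card : ℝ) * (1 / (N : ℝ)) ^ e := by
    unfold L
    have : ∀ K ∈ G.cliqueFinset e, ∏ _v ∈ K, (1 / (N : ℝ)) = (1 / (N : ℝ)) ^ e := by
      intro K hK
      rw [SimpleGraph.mem_cliqueFinset_iff, SimpleGraph.isNClique_iff] at hK
      rw [Finset.prod_const, hK.2]
    rw [Finset.sum_congr rfl this, Finset.sum_const, nsmul_eq_mul]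
  have h2 := desc_eq N hN e
  rw [Nat.descFactorial_eq_factorial_mul_choose] at h2
  push_cast at h2
  rw [h1]
  have h3 : (N : ℝ) ^ e ≠ 0 := pow_ne_zero _ hN0
  have h4 : S N e = (e.factorial : ℝ) * (N.choose e : ℝ) / (N : ℝ) ^ e := by
    rw [h2]; field_simp
  rw [h4, one_div, inv_pow]
  generalize (N : ℝ) ^ e = p at h3
  generalize ((N.choose e : ℕ) : ℝ) = q at hch
  generalize (e.factorial : ℝ) = r
  generalize ((G.cliqueFinset e).card : ℝ) = s
  field_simp


lemma top_count (N e : ℕ) [DecidableRel (⊤ : SimpleGraph (Fin N)).Adj] :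
    ((⊤ : SimpleGraph (Fin N)).cliqueFinset e).card = N.choose e := by
  have h1 : ((⊤ : SimpleGraph (Fin N)).cliqueFinset e) =
      (Finset.univ : Finset (Fin N)).powersetCard e := by
    ext K
    rw [SimpleGraph.mem_cliqueFinset_iff, SimpleGraph.isNClique_iff, Finset.mem_powersetCard]
    constructor
    · rintro ⟨_, h⟩
      exact ⟨Finset.subset_univ _, h⟩
    · rintro ⟨_, h⟩
      exact ⟨fun u _ v _ huv => huv, h⟩
  rw [h1, Finset.card_powersetCard, Finset.card_univ, Fintype.card_fin]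

lemma bound {m N : ℕ} (e : Fin m → ℕ) (hle : ∀ i, e i ≤ N) (hN1 : 1 ≤ N) (c : Fin m → ℝ)
    (u : ℝ) (hu : ∀ k : ℕ, 1 ≤ k → u ≤ ∑ i, c i * S k (e i)) (G : SimpleGraph (Fin N))
    [DecidableRel G.Adj] :
    u ≤ ∑ i, c i * (((G.cliqueFinset (e i)).card : ℝ) / ((Nat.choose N (e i) : ℕ) : ℝ)) +
      ∑ i, |c i| * |1 - S N (e i)| := by
  have hne : Nonempty (Fin N) := ⟨⟨0, by omega⟩⟩
  have hN0 : (N : ℝ) ≠ 0 := by
    have : (1 : ℝ) ≤ N := by exact_mod_cast hN1
    linarith
  have hMS := MS G e c u hu (fun _ => 1 / (N : ℝ)) ⟨fun _ => by positivity, by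
    rw [Finset.sum_const, Finset.card_univ, Fintype.card_fin, nsmul_eq_mul]
    field_simp⟩
  unfold PP at hMS
  have h1 : ∀ i, c i * ((e i).factorial : ℝ) *
      L (G.cliqueFinset (e i)) (fun _ => 1 / (N : ℝ)) =
      c i * (S N (e i) * (((G.cliqueFinset (e i)).card : ℝ) /
        ((Nat.choose N (e i) : ℕ) : ℝ))) := by
    intro i
    rw [mul_assoc, uniform hN1 G (e i) (hle i)]
  rw [Finset.sum_congr rfl (fun i _ => h1 i)] at hMS
  rw [← Finset.sum_add_distrib]
  refine hMS.trans (Finset.sum_le_sum (fun i _ => ?_))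
  set d : ℝ := ((G.cliqueFinset (e i)).card : ℝ) / ((Nat.choose N (e i) : ℕ) : ℝ) with hd
  have hd0 : 0 ≤ d := div_nonneg (Nat.cast_nonneg _) (Nat.cast_nonneg _)
  have hd1 : d ≤ 1 := by
    rw [hd]
    have hch : 0 < Nat.choose N (e i) := Nat.choose_pos (hle i)
    rw [div_le_one (by exact_mod_cast hch)]
    have := G.card_cliqueFinset_le (n := e i)
    rw [Fintype.card_fin] at this
    exact_mod_cast this
  have h2 : c i * (S N (e i) * d) = c i * d + c i * (S N (e i) - 1) * d := by ring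
  rw [h2]
  have h3 : c i * (S N (e i) - 1) * d ≤ |c i| * |1 - S N (e i)| := by
    calc c i * (S N (e i) - 1) * d ≤ |c i * (S N (e i) - 1) * d| := le_abs_self _
      _ = |c i| * |1 - S N (e i)| * d := by
          rw [abs_mul, abs_mul, abs_of_nonneg hd0, abs_sub_comm]
      _ ≤ |c i| * |1 - S N (e i)| * 1 := mul_le_mul_of_nonneg_left hd1 (by positivity)
      _ = _ := mul_one _
  linarith

end Q117.CP
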